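import Mathlib
import Pool.Agent.Helper9_CG.Stmt
import Pool.Agent.Helper76_LAG.Res

/-!
# CG, module RES: the theorem in the form of the question
-/

set_option autoImplicit false

open SimpleGraph Pool.Agent.LAG Pool.Agent.LAG.Res Pool.Agent.Helper14_LA

namespace Pool.Agent.CG.Res

/-- The linear arboricity of `G`: the least `k` such that `G` is the union of `k` linear forests
(acyclic graphs all of whose degrees are at most two) on the vertex set of `G`. -/
noncomputable def la {V : Type} (G : SimpleGraph V) : ℕ :=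
  sInf {k : ℕ | ∃ F : Fin k → SimpleGraph V,
    (∀ i, (F i).IsAcyclic ∧ ∀ v, ((F i).neighborSet v).ncard ≤ 2) ∧ (⨆ i, F i) = G}

/-- all graphs and regular graphs -/
theorem final (hTop : TopcStmt) : ∃ g : ℕ,
    (∀ (V : Type) [Fintype V] (G : SimpleGraph V) [DecidableRel G.Adj],
      (∀ (v : V) (c : G.Walk v v), c.IsCycle → g ≤ c.length) →
      la G ≤ (G.maxDegree + 2) / 2) ∧
    (∀ (V : Type) [Fintype V] [Nonempty V] (G : SimpleGraph V) (r : ℕ) [DecidableRel G.Adj],
      0 < r → G.IsRegularOfDegree r →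
      (∀ (v : V) (c : G.Walk v v), c.IsCycle → g ≤ c.length) →
      la G = (r + 2) / 2) := by
  obtain ⟨g0, hcov⟩ := hTop
  refine ⟨g0 + 1, ?_, ?_⟩
  · intro V _ G _ hg
    have h1 : CoveredBy G (G.maxDegree / 2 + 1) := hcov V G G.maxDegree (fun v => by
      rw [ncard_eq_degree]; exact G.degree_le_maxDegree v) (fun v c hc => hg v c hc)
    have : la G ≤ G.maxDegree / 2 + 1 := la_le h1
    omega
  · intro V _ _ G r _ hr hreg hg
    have hreg' : ∀ v, (G.neighborSet v).ncard = r := fun v => by
      rw [ncard_eq_degree, hreg v]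
    have h1 : CoveredBy G (r / 2 + 1) := hcov V G r (fun v => by rw [hreg'])
      (fun v c hc => hg v c hc)
    have h5 := lower_bound G hr hreg' (la_mem h1)
    have h6 : la G ≤ r / 2 + 1 := la_le h1
    have h7 : (r + 2) / 2 ≤ la G := by
      have h8 : Pool.Agent.LAG.Res.la G = la G := rfl
      omega
    omega

end Pool.Agent.CG.Res
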